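import Pool.Agent.SXF.Stmts

set_option autoImplicit false

/-! Squad SXF, row BLK: one block of the generator. -/

namespace Pool.Agent.SXF.H82

open MvPolynomial Pool.Agent.SXF

section

variable {E : Type} [Field E] {T : ℕ}

theorem exists_eval_ne [CharZero E] {p : Polynomial (MvPolynomial (Fin T) E)} (hp : p ≠ 0) :
    ∃ y : E, p.eval (C y) ≠ 0 := by
  by_contra h
  push Not at h
  apply hp
  refine Polynomial.eq_zero_of_infinite_isRoot p ?_
  have h1 : (Set.range (C : E → MvPolynomial (Fin T) E)).Infinite :=
    Set.infinite_range_of_injective (C_injective (Fin T) E)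
  refine h1.mono ?_
  rintro _ ⟨y, rfl⟩
  exact h y

/-- the substitution -/
noncomputable def sub (B : Finset ℕ) (f0 : ℕ → MvPolynomial (Fin T) E) :
    MvPolynomial ℕ E →ₐ[E] MvPolynomial (Fin B.card) (MvPolynomial (Fin T) E) :=
  aeval (fun i => if h : i ∈ B then X (B.equivFin ⟨i, h⟩) else C (f0 i))

theorem eval₂_sub {A : Type} [CommRing A] (B : Finset ℕ) (f0 : ℕ → MvPolynomial (Fin T) E)
    (ψ : MvPolynomial (Fin T) E →+* A) (ζ : Fin B.card → A) (F : MvPolynomial ℕ E) :
    eval₂ ψ ζ (sub B f0 F) =
      eval₂ (ψ.comp C) (fun i => if h : i ∈ B then ζ (B.equivFin ⟨i, h⟩) else ψ (f0 i)) F := by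
  unfold sub
  rw [aeval_def]
  have h1 := eval₂_comp_left (eval₂Hom ψ ζ)
    (algebraMap E (MvPolynomial (Fin B.card) (MvPolynomial (Fin T) E)))
    (fun i => if h : i ∈ B then X (B.equivFin ⟨i, h⟩) else C (f0 i)) F
  rw [coe_eval₂Hom] at h1
  rw [h1]
  congr 1
  · refine RingHom.ext fun x => ?_
    rw [RingHom.comp_apply, RingHom.comp_apply, coe_eval₂Hom, MvPolynomial.algebraMap_apply,
      eval₂_C, MvPolynomial.algebraMap_eq]
  · funext i
    simp only [Function.comp_apply]
    split_ifs with h
    · simp
    · simp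

theorem aeval_C_eq (b : ℕ) (f0 : ℕ → MvPolynomial (Fin T) E) (p : MvPolynomial ℕ E) :
    (C (aeval f0 p) : MvPolynomial (Fin b) (MvPolynomial (Fin T) E)) =
      aeval (fun i => C (f0 i)) p :=
  comp_aeval_apply (R := E) (f := f0)
      (φ := IsScalarTower.toAlgHom E (MvPolynomial (Fin T) E)
        (MvPolynomial (Fin b) (MvPolynomial (Fin T) E))) (p := p)

theorem sub_congr (B : Finset ℕ) (f0 : ℕ → MvPolynomial (Fin T) E) {p : MvPolynomial ℕ E}
    (hp : Disjoint p.vars B) : sub B f0 p = C (aeval f0 p) := by
  rw [aeval_C_eq]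
  unfold sub
  refine eval₂Hom_congr' rfl ?_ rfl
  intro i hi _
  have hiB : i ∉ B := Finset.disjoint_left.1 hp hi
  rw [dif_neg hiB]

theorem sub_coeff (B : Finset ℕ) (f0 : ℕ → MvPolynomial (Fin T) E) {t : ℕ}
    (h : Fin t → MvPolynomial ℕ E) (hh : ∀ l, Disjoint (h l).vars B) {p : MvPolynomial ℕ E}
    (hp : p ∈ Algebra.adjoin E (Set.range h ∪ X '' (B : Set ℕ))) (m : Fin B.card →₀ ℕ) :
    (sub B f0 p).coeff m ∈ Algebra.adjoin E (Set.range fun l => aeval f0 (h l)) := by
  set S := Algebra.adjoin E (Set.range fun l => (aeval f0 (h l) : MvPolynomial (Fin T) E))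
    with hS
  have h1 : Algebra.adjoin E (Set.range h ∪ X '' (B : Set ℕ)) ≤
      (mapAlgHom (σ := Fin B.card) S.val).range.comap (sub B f0) := by
    rw [Algebra.adjoin_le_iff]
    rintro q (⟨l, rfl⟩ | ⟨i, hi, rfl⟩)
    · rw [SetLike.mem_coe, Subalgebra.mem_comap, sub_congr B f0 (hh l)]
      refine ⟨C ⟨aeval f0 (h l), Algebra.subset_adjoin ⟨l, rfl⟩⟩, ?_⟩
      simp
    · rw [SetLike.mem_coe, Subalgebra.mem_comap]
      refine ⟨X (B.equivFin ⟨i, hi⟩), ?_⟩
      have h2 : sub B f0 (X i) = X (B.equivFin ⟨i, hi⟩) := by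
        unfold sub
        rw [aeval_X, dif_pos (Finset.mem_coe.1 hi)]
      rw [h2]
      simp
  obtain ⟨q, hq⟩ := h1 hp
  have h3 : sub B f0 p = mapAlgHom (σ := Fin B.card) S.val q := hq.symm
  rw [h3]
  have h4 : (mapAlgHom (σ := Fin B.card) S.val q).coeff m = S.val (q.coeff m) := by
    rw [mapAlgHom_apply]
    exact coeff_map _ _ _
  rw [h4]
  exact (q.coeff m).2

theorem sub_ne {B : Finset ℕ} {f0 : ℕ → MvPolynomial (Fin T) E} {F : MvPolynomial ℕ E}
    (h : aeval f0 F ≠ 0) : sub B f0 F ≠ 0 := by
  intro h0
  apply h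
  have h1 := eval₂_sub B f0 (RingHom.id _) (fun j => f0 (B.equivFin.symm j)) F
  rw [h0, eval₂_zero] at h1
  rw [aeval_def, MvPolynomial.algebraMap_eq]
  have h2 : (fun i => if h : i ∈ B then f0 (B.equivFin.symm (B.equivFin ⟨i, h⟩)) else
      RingHom.id _ (f0 i)) = f0 := by
    funext i
    split_ifs with hi
    · rw [Equiv.symm_apply_apply]
    · rfl
  rw [h2] at h1
  rw [RingHom.id_comp] at h1
  exact h1.symm

theorem aeval_congr_vars {f g : ℕ → MvPolynomial (Fin T) E} {F : MvPolynomial ℕ E}
    (h : ∀ i ∈ F.vars, f i = g i) : aeval f F = aeval g F := by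
  refine eval₂Hom_congr' rfl ?_ rfl
  intro i hi _
  exact h i hi

end

/-- **BLK**. -/
theorem blk (hSTP : StpStmt) : BlkStmt := by
  classical
  intro E _ _ τ n m T F w k r hτ hT hT1 hvars hw hint hblock y z e hne
  set f0 : ℕ → MvPolynomial (Fin T) E := mixed (T := T) k r y z e with hf0
  -- the variables of `F` in the block
  set B : Finset ℕ := F.vars.filter fun i => k i = r with hB
  have hBk : ∀ i ∈ B, k i = r := fun i hi => (Finset.mem_filter.1 hi).2
  have hBv : ∀ i ∈ B, i ∈ F.vars := fun i hi => (Finset.mem_filter.1 hi).1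
  have hBn : B ⊆ Finset.range n := fun i hi => hvars (hBv i hi)
  -- comparison of the points
  have hpt : ∀ (y0 z0 : E) (i : ℕ), i ∈ F.vars →
      mixed (T := T) k (r + 1) (Function.update y r y0) (Function.update z r z0) e i =
        if i ∈ B then C z0 + ∑ j : Fin T, X j * (C (((i : E) + 1) * y0)) ^ (j : ℕ) else f0 i := by
    intro y0 z0 i hi
    by_cases hk : k i = r
    · have hiB : i ∈ B := Finset.mem_filter.2 ⟨hi, hk⟩
      rw [if_pos hiB]
      unfold mixed
      rw [if_pos (by omega), hk, Function.update_self, Function.update_self]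
    · have hiB : i ∉ B := fun h => hk (hBk i h)
      rw [if_neg hiB, hf0]
      unfold mixed
      by_cases hlt : k i < r
      · rw [if_pos (by omega), if_pos hlt, Function.update_of_ne hk, Function.update_of_ne hk]
      · rw [if_neg (by omega), if_neg hlt]
  rcases hblock with hlight | ⟨i0, hi0⟩
  · -- a light block
    have hsum : ∑ i ∈ B, w i ≤ m := by
      refine le_trans (Finset.sum_le_sum_of_subset ?_) hlight
      intro i hi
      exact Finset.mem_filter.2 ⟨hBn hi, hBk i hi⟩
    have hcard : B.card ≤ m := by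
      refine le_trans ?_ hsum
      calc B.card = ∑ _i ∈ B, 1 := (Finset.card_eq_sum_ones B)
        _ ≤ ∑ i ∈ B, w i := Finset.sum_le_sum fun i hi => hw i (hBv i hi)
    obtain ⟨t, N, h, ht, hdisj, hmem⟩ := hint B e hBn
    have htT : t + B.card ≤ T := by
      have := hτ hsum
      omega
    have hfr : sub B f0 (freeze B e F) = C (aeval f0 F) := by
      rw [aeval_C_eq]
      unfold freeze
      rw [← AlgHom.comp_apply, comp_aeval]
      refine eval₂Hom_congr' rfl ?_ rfl
      intro i _ _
      by_cases hiB : i ∈ B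
      · rw [if_pos hiB, hf0]
        unfold mixed
        rw [if_neg (by have := hBk i hiB; omega), algHom_C]
        rfl
      · rw [if_neg hiB]
        unfold sub
        rw [aeval_X, dif_neg hiB]
    have hG : sub B f0 (freeze B e F ^ N * F) = C (aeval f0 F) ^ N * sub B f0 F := by
      rw [map_mul, map_pow, hfr]
    have hGne : sub B f0 (freeze B e F ^ N * F) ≠ 0 := by
      rw [hG]
      refine mul_ne_zero (pow_ne_zero _ ?_) (sub_ne hne)
      intro h0
      exact hne (C_injective _ _ (by rw [h0, C_0]))
    have hstp := hSTP E t B.card T htT (fun j => (B.equivFin.symm j : ℕ) + 1)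
      (by
        intro a b hab
        have : ((B.equivFin.symm a : ℕ)) = (B.equivFin.symm b : ℕ) := by
          simpa using hab
        exact B.equivFin.symm.injective (Subtype.ext this))
      (fun i => Nat.le_add_left 1 _) (fun l => aeval f0 (h l))
      (sub B f0 (freeze B e F ^ N * F)) (fun m => sub_coeff B f0 h hdisj hmem m) hGne
    obtain ⟨y0, hy0⟩ := exists_eval_ne hstp
    refine ⟨Function.update y r y0, Function.update z r 0, e, ?_⟩
    intro h0
    apply hy0
    rw [hG]
    have h1 : aeval (mixed (T := T) k (r + 1) (Function.update y r y0)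
        (Function.update z r 0) e) F =
        eval₂ (RingHom.id _) (fun j => ∑ j' : Fin T, X j' *
          (C ((((B.equivFin.symm j : ℕ) : E) + 1) * y0)) ^ (j' : ℕ)) (sub B f0 F) := by
      rw [eval₂_sub, RingHom.id_comp, aeval_def, MvPolynomial.algebraMap_eq]
      refine eval₂Hom_congr' rfl ?_ rfl
      intro i hi _
      rw [hpt y0 0 i hi]
      by_cases hiB : i ∈ B
      · rw [if_pos hiB, dif_pos hiB, Equiv.symm_apply_apply, C_0, zero_add]
      · rw [if_neg hiB, dif_neg hiB, RingHom.id_apply]
    rw [h0] at h1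
    have h3 := eval₂_comp_left (Polynomial.evalRingHom (C y0 : MvPolynomial (Fin T) E))
      (Polynomial.C : MvPolynomial (Fin T) E →+* _)
      (fun i => ∑ j : Fin T, Polynomial.C (X j) *
        (Polynomial.C (((B.equivFin.symm i : ℕ) + 1 : ℕ) : MvPolynomial (Fin T) E) *
          Polynomial.X) ^ (j : ℕ)) (C (aeval f0 F) ^ N * sub B f0 F)
    rw [Polynomial.coe_evalRingHom] at h3
    rw [h3]
    have h4 : (Polynomial.evalRingHom (C y0 : MvPolynomial (Fin T) E)).comp Polynomial.C =
        RingHom.id _ := by
      refine RingHom.ext fun x => ?_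
      simp
    rw [h4, eval₂_mul]
    refine mul_eq_zero_of_right _ ?_
    rw [h1]
    congr 1
    funext i
    simp [Polynomial.eval_finset_sum]
  · -- a block with at most one variable
    by_cases hi0v : i0 ∈ B
    · -- substitute a new variable
      have hBi0 : ∀ i ∈ B, i = i0 := fun i hi =>
        hi0 i (Finset.mem_range.1 (hBn hi)) (hBk i hi)
      set p : Polynomial (MvPolynomial (Fin T) E) := eval₂ (Polynomial.C.comp C)
        (fun i => if i ∈ B then Polynomial.X else Polynomial.C (f0 i)) F with hp
      have hpe : ∀ x : MvPolynomial (Fin T) E, p.eval x =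
          eval₂ C (fun i => if i ∈ B then x else f0 i) F := by
        intro x
        have h3 := eval₂_comp_left (Polynomial.evalRingHom x)
          ((Polynomial.C : MvPolynomial (Fin T) E →+* _).comp C)
          (fun i => if i ∈ B then Polynomial.X else Polynomial.C (f0 i)) F
        rw [Polynomial.coe_evalRingHom] at h3
        rw [hp, h3]
        congr 1
        · refine RingHom.ext fun x => ?_
          simp
        · funext i
          simp only [Function.comp_apply]
          split_ifs
          · simp
          · simp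
      have hpne : p ≠ 0 := by
        intro h0
        apply hne
        have h1 := hpe (f0 i0)
        rw [h0, Polynomial.eval_zero] at h1
        rw [aeval_def, MvPolynomial.algebraMap_eq, h1]
        congr 1
        funext i
        split_ifs with hi
        · rw [hBi0 i hi]
        · rfl
      have hqne : p.comp (Polynomial.X + Polynomial.C (X ⟨0, hT1⟩)) ≠ 0 := by
        intro h0
        apply hpne
        have h1 := congrArg (fun q => Polynomial.comp q
          (Polynomial.X - Polynomial.C (X ⟨0, hT1⟩))) h0
        simp only [Polynomial.comp_assoc, Polynomial.add_comp, Polynomial.X_comp,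
          Polynomial.C_comp, sub_add_cancel, Polynomial.comp_X, Polynomial.zero_comp] at h1
        exact h1
      obtain ⟨z0, hz0⟩ := exists_eval_ne hqne
      refine ⟨Function.update y r 0, Function.update z r z0, e, ?_⟩
      intro h0
      apply hz0
      rw [Polynomial.eval_comp, hpe, Polynomial.eval_add, Polynomial.eval_X, Polynomial.eval_C,
        ← h0, aeval_def, MvPolynomial.algebraMap_eq]
      refine eval₂Hom_congr' rfl ?_ rfl
      intro i hi _
      rw [hpt 0 z0 i hi]
      by_cases hiB : i ∈ B
      · rw [if_pos hiB, if_pos hiB]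
        congr 1
        rw [Finset.sum_eq_single (⟨0, hT1⟩ : Fin T)]
        · simp
        · intro j _ hj
          have hj0 : (j : ℕ) ≠ 0 := fun h => hj (Fin.ext h)
          rw [mul_zero, C_0, zero_pow hj0, mul_zero]
        · intro h
          exact absurd (Finset.mem_univ _) h
      · rw [if_neg hiB, if_neg hiB]
    · -- the block does not meet `F`
      refine ⟨Function.update y r 0, Function.update z r 0, e, ?_⟩
      have h1 : aeval (mixed (T := T) k (r + 1) (Function.update y r 0)
          (Function.update z r 0) e) F = aeval f0 F := by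
        refine aeval_congr_vars ?_
        intro i hi
        rw [hpt 0 0 i hi, if_neg]
        intro hiB
        apply hi0v
        rw [← hi0 i (Finset.mem_range.1 (hBn hiB)) (hBk i hiB)]
        exact hiB
      rw [h1]
      exact hne

end Pool.Agent.SXF.H82
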